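import Pool.Agent.T2H08.CM.Main

/-!
Canonical divisors of varieties with canonical singularities and adjoint divisors `a K_X + b L`: the
class of the pull back by a birational self-map is at most the class of the divisor.
-/

set_option autoImplicit false
set_option linter.overlappingInstances false
set_option linter.unusedSectionVars false
set_option linter.unusedVariables false

open Filter Topology FF Module MvPolynomial Pool.Agent.W602.GT Pool.Agent.W603.LV Pool.Agent.W619.PQ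
open Pool.Agent.Y172 Pool.Agent.Y191 Pool.Agent.R887
open Pool.Agent.T2H06.DYN (pl pl_ord pl_divisorial tf tf_ordGe tf_pluri exists_det centred_of_through)
open Pool.Agent.T2H06.DYL

namespace Pool.Agent.T2H08.CM

section

variable {K : Type} [Field K] [Algebra ℂ K] {N n : ℕ} {y : Fin (N + 1) → K}

/-- `C` is a canonical divisor of `X`, `n` being the dimension of `X`: the divisor of a rational
`n`-form `ω`. -/
def IsCanonicalDivisor (y : Fin (N + 1) → K) (n : ℕ) (C : Place ℂ K → ℚ) : Prop :=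
  ∃ ω : (Fin n → Derivation ℂ K K) → K, IsPluri 1 ω ∧ ∀ P, IsPrimeDivisor y P → OrdEq P ω (C P)

/-- powers of `n`-forms -/
theorem pow_pluri {ω : (Fin n → Derivation ℂ K K) → K} (hω : IsPluri 1 ω) (a : ℕ) :
    IsPluri a fun D => ω D ^ a := by
  intro A E
  have h := hω A E
  change ω (fun i => ∑ j, A i j • E j) ^ a = A.det ^ a * ω E ^ a
  rw [h, pow_one, mul_pow]

theorem pow_ordEq {ω : (Fin n → Derivation ℂ K K) → K} {P : Place ℂ K} {c : ℚ}
    (h : OrdEq P ω c) (a : ℕ) : OrdEq P (fun D => ω D ^ a) (a * c) := by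
  obtain ⟨h1, D0, hD0, h2, h3⟩ := h
  refine ⟨fun D hD => ?_, D0, hD0, pow_ne_zero _ h2, ?_⟩
  · by_cases hωD : ω D = 0
    · by_cases ha : a = 0
      · right
        subst ha
        have : P.ord (ω D ^ 0) = 0 := by rw [pow_zero, P.ord_one]
        change ((0 : ℕ) : ℚ) * c ≤ ((P.ord (ω D ^ 0) : ℤ) : ℚ)
        rw [this]
        simp
      · left
        change ω D ^ a = 0
        rw [hωD, zero_pow ha]
    · right
      change (a : ℚ) * c ≤ ((P.ord (ω D ^ a) : ℤ) : ℚ)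
      rw [P.ord_pow]
      push_cast
      exact mul_le_mul_of_nonneg_left ((h1 D hD).resolve_left hωD) (Nat.cast_nonneg a)
  · change ((P.ord (ω D0 ^ a) : ℤ) : ℚ) = a * c
    rw [P.ord_pow]
    push_cast
    rw [h3]

/-- the order of an `n`-form along a divisor over `X`, for canonical singularities -/
theorem can_ord (hy : NormalModel y) (hn : Algebra.trdeg ℂ K = n) (hcan : Canonical y n)
    {x : Fin n → K} {E : Fin n → Derivation ℂ K K} (hx : IsTranscendenceBasis ℂ x)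
    (hE : ∀ i j, E i (x j) = if i = j then 1 else 0) (hfr : IsFrame E) {a : ℕ}
    {ω : (Fin n → Derivation ℂ K K) → K} (hω : IsPluri a ω) {C : Place ℂ K → ℚ}
    (hC : ∀ P, IsPrimeDivisor y P → OrdEq P ω (C P)) {Q : Place ℂ K}
    (hQ : Divisorial n Q) {e : K} (he : LocalEquation y C Q e) : OrdGe Q ω (Q.ord e) := by
  classical
  intro D hD
  obtain ⟨r, hr, η, hη, hηP, hηQ⟩ := hcan Q hQ
  obtain ⟨c, -, hc⟩ := exists_ordc hy hn hx hE
  obtain ⟨P0, hP0, hP0t⟩ := exists_through hy Q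
  have hηE : η E ≠ 0 := (ordEq_val hfr hc hP0 hη (hηP P0 hP0 hP0t)).1
  have hωE : ω E ≠ 0 := (ordEq_val hfr hc hP0 hω (hC P0 hP0)).1
  by_cases hωD : ω D = 0
  · exact Or.inl hωD
  right
  obtain ⟨he0, heP⟩ := he
  obtain ⟨f, hf⟩ : ∃ f, f = ω E ^ r / (e ^ r * η E ^ a) := ⟨_, rfl⟩
  have hden : e ^ r * η E ^ a ≠ 0 := mul_ne_zero (pow_ne_zero _ he0) (pow_ne_zero _ hηE)
  have hf0 : f ≠ 0 := by
    rw [hf]
    exact div_ne_zero (pow_ne_zero _ hωE) hden
  have hordf : ∀ P : Place ℂ K, P.ord f =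
      r * P.ord (ω E) - r * P.ord e - a * P.ord (η E) := by
    intro P
    rw [hf, P.ord_div (pow_ne_zero _ hωE) hden,
      P.ord_mul (pow_ne_zero _ he0) (pow_ne_zero _ hηE), P.ord_pow, P.ord_pow, P.ord_pow]
    ring
  have h1 : Q.ord f = 0 := by
    refine unit_of_through hy hf0 fun P hP ht => ?_
    obtain ⟨-, h2⟩ := ordEq_val hfr hc hP hη (hηP P hP ht)
    obtain ⟨-, h3⟩ := ordEq_val hfr hc hP hω (hC P hP)
    have h4 := heP P hP ht
    have h5 : ((P.ord f : ℤ) : ℚ) = 0 := by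
      rw [hordf]
      push_cast at h2 h3 ⊢
      have h6 : (P.ord (ω E) : ℚ) = P.ord e - a * c P := by rw [h4]; linarith
      have h7 : (P.ord (η E) : ℚ) = - (r * c P) := by linarith
      rw [h6, h7]
      ring
    exact_mod_cast h5
  rw [hordf] at h1
  choose M hM using fun i => hfr (D i)
  have e1 : D = fun i => ∑ j, Matrix.of M i j • E j := funext hM
  obtain ⟨δ, hδ⟩ : ∃ δ, δ = (Matrix.of M).det := ⟨_, rfl⟩
  have h2 : ω D = δ ^ a * ω E := by
    conv_lhs => rw [e1]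
    rw [hδ]
    exact hω _ _
  have h3 : η D = δ ^ r * η E := by
    conv_lhs => rw [e1]
    rw [hδ]
    exact hη _ _
  have hrq : (0 : ℤ) < r := by exact_mod_cast hr
  by_cases hδ0 : δ = 0
  · -- then `a = 0`
    have ha : a = 0 := by
      by_contra ha
      rw [hδ0, zero_pow ha, zero_mul] at h2
      exact hωD h2
    subst ha
    rw [pow_zero, one_mul] at h2
    rw [h2]
    have h9 : (r : ℤ) * (Q.ord (ω E) - Q.ord e) = 0 := by
      push_cast at h1
      linarith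
    have h10 : Q.ord (ω E) - Q.ord e = 0 := (mul_eq_zero.1 h9).resolve_left hrq.ne'
    have h11 : Q.ord e ≤ Q.ord (ω E) := by omega
    exact_mod_cast h11
  have h4 : Q.ord (ω D) = a * Q.ord δ + Q.ord (ω E) := by
    rw [h2, Q.ord_mul (pow_ne_zero _ hδ0) hωE, Q.ord_pow]
  have h6 : η D ≠ 0 := by
    rw [h3]
    exact mul_ne_zero (pow_ne_zero _ hδ0) hηE
  have h7 := (hηQ D hD).resolve_left h6
  rw [h3, Q.ord_mul (pow_ne_zero _ hδ0) hηE, Q.ord_pow] at h7
  have h8 : 0 ≤ (r : ℤ) * Q.ord δ + Q.ord (η E) := by exact_mod_cast h7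
  have h8' : 0 ≤ (a : ℤ) * ((r : ℤ) * Q.ord δ + Q.ord (η E)) :=
    mul_nonneg (Int.natCast_nonneg a) h8
  have h9 : 0 ≤ (r : ℤ) * (Q.ord (ω D) - Q.ord e) := by
    rw [h4]
    linarith
  have h10 : 0 ≤ Q.ord (ω D) - Q.ord e := nonneg_of_mul_nonneg_right h9 hrq
  have h11 : Q.ord e ≤ Q.ord (ω D) := by omega
  exact_mod_cast h11

/-- **The pull back of the multiples of the canonical divisor.** -/
theorem can_pull (hy : NormalModel y) (hn : Algebra.trdeg ℂ K = n) (hcan : Canonical y n)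
    {C : Place ℂ K → ℚ} (hC : IsCanonicalDivisor y n C) (a : ℕ) (g : K ≃ₐ[ℂ] K) :
    ∃ u : K, u ≠ 0 ∧ ∀ (R : Place ℂ K) (e : K), IsPrimeDivisor y R →
      LocalEquation y (a • C) (pl g R) e → ((R.ord (g e) : ℤ) : ℚ) ≤ a * C R + R.ord u := by
  obtain ⟨ω', hω', hωC'⟩ := hC
  obtain ⟨ω, hωdef⟩ : ∃ ω : (Fin n → Derivation ℂ K K) → K, ω = fun D => ω' D ^ a := ⟨_, rfl⟩
  have hω : IsPluri a ω := by rw [hωdef]; exact pow_pluri hω' a
  have hωC : ∀ P, IsPrimeDivisor y P → OrdEq P ω ((a • C) P) := by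
    intro P hP
    have e : (a • C) P = a * C P := by rw [Pi.smul_apply, nsmul_eq_mul]
    rw [hωdef, e]
    exact pow_ordEq (hωC' P hP) a
  obtain ⟨x, E, hx, hE⟩ := exists_crd hn (k := ℂ) (K := K)
  have hfr : IsFrame E := fun F => ⟨fun j => F (x j),
    (Pool.Agent.W73.PG.PULL.expand x hx E hE F).symm⟩
  obtain ⟨c, -, hc⟩ := exists_ordc hy hn hx hE
  obtain ⟨δ, hδ, hδm⟩ := exists_det hE hfr g
  by_cases hωE : ω E = 0
  · exact ⟨1, one_ne_zero, fun R e hR _ => absurd hωE (ordEq_val hfr hc hR hω (hωC R hR)).1⟩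
  · refine ⟨δ ^ a * g (ω E) / ω E,
      div_ne_zero (mul_ne_zero (pow_ne_zero _ hδ) ((map_ne_zero g).2 hωE)) hωE,
      fun R e hR he => ?_⟩
    have h1 := tf_ordGe g (can_ord hy hn hcan hx hE hfr hω hωC
      (pl_divisorial g (hR.divisorial hy hn)) he)
    have h2 : tf g ω E = δ ^ a * g (ω E) := hδm a ω hω
    have h3 : tf g ω E ≠ 0 := by
      rw [h2]
      exact mul_ne_zero (pow_ne_zero _ hδ) ((map_ne_zero g).2 hωE)
    have h4 := ((hc R hR a _ (tf_pluri g hω) _).1 h1).resolve_left h3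
    obtain ⟨-, h5⟩ := ordEq_val hfr hc hR hω (hωC R hR)
    have e' : (a • C) R = a * C R := by rw [Pi.smul_apply, nsmul_eq_mul]
    rw [e'] at h5
    rw [pl_ord] at h4
    rw [R.ord_div (by rw [← h2]; exact h3) hωE, ← h2]
    push_cast at h4 h5 ⊢
    linarith

/-- a canonical divisor is a divisor -/
theorem can_divisor (hy : NormalModel y) (hn : Algebra.trdeg ℂ K = n)
    {C : Place ℂ K → ℚ} (hC : IsCanonicalDivisor y n C) : IsDivisor y C := by
  obtain ⟨ω, hω, hωC⟩ := hC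
  obtain ⟨x, E, hx, hE⟩ := exists_crd hn (k := ℂ) (K := K)
  have hfr : IsFrame E := fun F => ⟨fun j => F (x j),
    (Pool.Agent.W73.PG.PULL.expand x hx E hE F).symm⟩
  obtain ⟨c, hcf, hc⟩ := exists_ordc hy hn hx hE
  by_cases hωE : ω E = 0
  · refine Set.Finite.subset Set.finite_empty ?_
    rintro P ⟨hP, -⟩
    exact absurd hωE (ordEq_val hfr hc hP hω (hωC P hP)).1
  · refine (hcf.union (finite_ord hy hωE)).subset ?_
    rintro P ⟨hP, h⟩
    obtain ⟨-, h5⟩ := ordEq_val hfr hc hP hω (hωC P hP)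
    by_cases h6 : c P = 0
    · right
      refine ⟨hP, fun h7 => h ?_⟩
      rw [← h5, h6, h7]
      simp
    · left
      exact ⟨hP, h6⟩

theorem add_divisor {C L : Place ℂ K → ℚ} (hC : IsDivisor y C) (hL : IsDivisor y L) (a b : ℕ) :
    IsDivisor y (a • C + b • L) := by
  refine (hC.union hL).subset ?_
  rintro P ⟨hP, h⟩
  by_cases h1 : C P = 0
  · right
    refine ⟨hP, fun h2 => h ?_⟩
    rw [Pi.add_apply, Pi.smul_apply, Pi.smul_apply, h1, h2]
    simp
  · left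
    exact ⟨hP, h1⟩

/-- places over which a place lies, for an automorphism -/
theorem lies_pl {g : K ≃ₐ[ℂ] K} {R Q' : Place ℂ K} {e : ℕ} (h : LiesOver (g : K →ₐ[ℂ] K) R Q' e) :
    Q' = pl g R := by
  obtain ⟨h1, h2⟩ := h
  obtain ⟨t, ht, h3⟩ := R.surj
  have h4 := h2 (g.symm t)
  have e1 : (g : K →ₐ[ℂ] K) (g.symm t) = t := g.apply_symm_apply t
  rw [e1, h3] at h4
  have h5 : (e : ℤ) ∣ 1 := ⟨_, h4⟩
  have h6 : e = 1 := by
    have := Int.natAbs_dvd_natAbs.2 h5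
    simpa using this
  subst h6
  refine Place.ext ?_
  funext f
  have h7 := h2 f
  rw [Nat.cast_one, one_mul] at h7
  exact h7.symm

/-- **Adjoint divisors.** -/
theorem adj_pull (hy : NormalModel y) (hn : Algebra.trdeg ℂ K = n) (hcan : Canonical y n)
    {C L : Place ℂ K → ℚ} (hC : IsCanonicalDivisor y n C) (hL : Cartier y n L) (a b : ℕ)
    (g : K ≃ₐ[ℂ] K) (hle : PullLe y L (g : K →ₐ[ℂ] K) 1) :
    PullLe y (a • C + b • L) (g : K →ₐ[ℂ] K) 1 := by
  intro i hi q hq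
  obtain ⟨u, hu, hup⟩ := can_pull hy hn hcan hC a g
  obtain ⟨a1, ha1, w1, hw1, h1⟩ : ∃ a1 : ℕ, 1 ≤ a1 ∧ ∃ w1 : K, w1 ≠ 0 ∧
      ∀ (Q Q' : Place ℂ K) (e : ℕ) (l : Fin (N + 1)) (gL : K), IsPrimeDivisor y Q →
      LiesOver (g : K →ₐ[ℂ] K) Q Q' e → Centred y l Q → LocalEquation y L Q' gL →
        (a1 : ℚ) * ((q * b : ℕ) * Q.ord (g gL)) ≤
          a1 * ((q * b : ℕ) * L Q + Q.ord (y i / y l)) + Q.ord w1 := by
    by_cases hb : b = 0
    · subst hb
      refine ⟨1, le_rfl, 1, one_ne_zero, fun Q Q' e l gL hQ _ hl _ => ?_⟩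
      have h2 : 0 ≤ Q.ord (y i / y l) := (Q.reg_iff (div_ne_zero hi hl.1)).1 (hl.2 i)
      have h3 : (0 : ℚ) ≤ Q.ord (y i / y l) := by exact_mod_cast h2
      rw [Q.ord_one]
      simpa using h3
    · obtain ⟨a1, ha1, w1, hw1, h2⟩ := hle i hi (q * b) (Nat.mul_pos hq (Nat.pos_of_ne_zero hb))
      refine ⟨a1, ha1, w1, hw1, fun Q Q' e l gL hQ hlo hl he => ?_⟩
      have h3 := h2 Q Q' e l gL hQ hlo hl he
      rw [Nat.cast_one, one_mul] at h3
      exact h3
  refine ⟨a1, ha1, w1 * u ^ (a1 * q), mul_ne_zero hw1 (pow_ne_zero _ hu),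
    fun Q Q' e l f hQ hlo hl hf => ?_⟩
  have hQ' := lies_pl hlo
  subst hQ'
  obtain ⟨eL, heL⟩ := hL _ (pl_divisorial g (hQ.divisorial hy hn))
  obtain ⟨eC, heC⟩ : ∃ eC, eC = f / eL ^ b := ⟨_, rfl⟩
  have heC0 : eC ≠ 0 := by
    rw [heC]
    exact div_ne_zero hf.1 (pow_ne_zero _ heL.1)
  have hCe : LocalEquation y (a • C) (pl g Q) eC := by
    refine ⟨heC0, fun P hP ht => ?_⟩
    have h2 := hf.2 P hP ht
    have h3 := heL.2 P hP ht
    rw [Pi.add_apply, Pi.smul_apply b, nsmul_eq_mul b (L P)] at h2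
    rw [heC, P.ord_div hf.1 (pow_ne_zero _ heL.1), P.ord_pow]
    push_cast
    rw [h3, h2]
    ring
  have h2 := hup Q eC hQ hCe
  have h3 := h1 Q _ e l eL hQ hlo hl heL
  have h4 : f = eC * eL ^ b := by
    rw [heC, div_mul_cancel₀ _ (pow_ne_zero _ heL.1)]
  have h5 : Q.ord ((g : K →ₐ[ℂ] K) f) = Q.ord (g eC) + b * Q.ord (g eL) := by
    change Q.ord (g f) = _
    rw [h4, map_mul, map_pow, Q.ord_mul ((map_ne_zero g).2 heC0)
      (pow_ne_zero _ ((map_ne_zero g).2 heL.1)), Q.ord_pow]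
  have h6 : Q.ord (w1 * u ^ (a1 * q)) = Q.ord w1 + (a1 * q : ℕ) * Q.ord u := by
    rw [Q.ord_mul hw1 (pow_ne_zero _ hu), Q.ord_pow]
  have h7 : (a • C + b • L) Q = a * C Q + b * L Q := by
    rw [Pi.add_apply, Pi.smul_apply, Pi.smul_apply, nsmul_eq_mul, nsmul_eq_mul]
  rw [h5, h6, h7]
  push_cast at h2 h3 ⊢
  have h8 : (0 : ℚ) ≤ a1 * q := by positivity
  have h9 := mul_le_mul_of_nonneg_left h2 h8
  linarith

end

end Pool.Agent.T2H08.CM
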