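import Pool.Agent.T2H08.CM.Lim
import Pool.Agent.T2H06.DYG.ConvA
import Pool.Agent.T2H06.DYN.LimB

/-!
The limits of the normalised intersection numbers for the action of a commutative group. (The file
follows `Pool/Agent/T2H06/DYG/LimB.lean`.)
-/

set_option autoImplicit false
set_option linter.overlappingInstances false
set_option linter.unusedSectionVars false
set_option linter.unusedVariables false

open Filter Topology FF Module IntermediateField Pool.Agent.R887 Pool.Agent.W602.GT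
open Pool.Agent.T2H06.DYG (ev_ge)
open Pool.Agent.T2H06.DYN (ulim ulim_spec MM_dom_rep MM_dom MM MM_map MM_four Dom im im_im im_refl im_fg MM_map MM_four coef_le)

namespace Pool.Agent.T2H08.CM

section fam

variable {Γ : Type} [AddCommGroup Γ] {K : Type} [Field K] [Algebra ℂ K] {n : ℕ}
  {ρ : Γ → (K ≃ₐ[ℂ] K)} {H : Submodule ℂ K}
  {W : ℕ → ℕ → Submodule ℂ K} {M β : ℕ}

theorem one_le {μ : ℕ → ℕ} (hμ : ∀ k, k + 1 ≤ μ k) (k : ℕ) : 1 ≤ μ k :=
  (Nat.succ_le_succ (Nat.zero_le k)).trans (hμ k)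

/-- the normalised intersection numbers -/
noncomputable def QQ (ρ : Γ → (K ≃ₐ[ℂ] K)) (H : Submodule ℂ K) (W : ℕ → ℕ → Submodule ℂ K) (μ : ℕ → ℕ)
    (i τ : ℕ) (s : Multiset Γ) (k : ℕ) : ℝ :=
  (NN ρ H W i (μ k) (μ k / (τ + 1)) s : ℝ) / (μ k : ℝ) ^ i

theorem QQ_nonneg {μ : ℕ → ℕ} {i τ : ℕ} {s : Multiset Γ} (k : ℕ) : 0 ≤ QQ ρ H W μ i τ s k := by
  unfold QQ
  positivity

theorem coef_le {m b M β : ℕ} (hb : b ≤ m) : m * M + b * β ≤ m * (2 * M + β) := by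
  have h1 : m * M ≤ m * (2 * M) := Nat.mul_le_mul_left _ (by omega)
  have h2 : b * β ≤ m * β := Nat.mul_le_mul_right _ hb
  calc m * M + b * β ≤ m * (2 * M) + m * β := Nat.add_le_add h1 h2
    _ = m * (2 * M + β) := by ring

theorem QQ_step (hF : NFam n ρ H W M β) {μ : ℕ → ℕ} (hμ : ∀ k, k + 1 ≤ μ k) {i τ : ℕ} {s : Multiset Γ}
    (h : i + 1 + s.card = n) (k : ℕ) :
    QQ ρ H W μ (i + 1) τ s k ≤ (2 * M + β) * QQ ρ H W μ i τ (0 ::ₘ s) k := by
  unfold QQ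
  have h1 := NN_dom hF (one_le hμ k) (b := μ k / (τ + 1)) h
  have h2 := Nat.mul_le_mul_right (NN ρ H W i (μ k) (μ k / (τ + 1)) (0 ::ₘ s))
    (coef_le (M := M) (β := β) (Nat.div_le_self (μ k) (τ + 1)))
  have h3 : (NN ρ H W (i + 1) (μ k) (μ k / (τ + 1)) s : ℝ) ≤
      (μ k : ℝ) * (2 * M + β) * NN ρ H W i (μ k) (μ k / (τ + 1)) (0 ::ₘ s) := by
    exact_mod_cast h1.trans h2
  have hm : (0 : ℝ) < μ k := by exact_mod_cast one_le hμ k
  rw [div_le_iff₀ (by positivity)]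
  refine h3.trans (le_of_eq ?_)
  field_simp
  ring

theorem QQ_bdd (hF : NFam n ρ H W M β) {μ : ℕ → ℕ} (hμ : ∀ k, k + 1 ≤ μ k) (i : ℕ) :
    ∀ s : Multiset Γ, i + s.card = n → ∃ C : ℝ, ∀ τ k, QQ ρ H W μ i τ s k ≤ C := by
  induction i with
  | zero =>
    intro s _
    refine ⟨MM (s.map (AA ρ H)), fun τ k => ?_⟩
    unfold QQ NN
    rw [Multiset.replicate_zero, zero_add, pow_zero, div_one]
  | succ i ih =>
    intro s hs
    obtain ⟨C, hC⟩ := ih (0 ::ₘ s) (by rw [Multiset.card_cons]; omega)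
    refine ⟨(2 * M + β) * C, fun τ k => (QQ_step hF hμ hs k).trans ?_⟩
    exact mul_le_mul_of_nonneg_left (hC τ k) (by positivity)

/-- the limit of the normalised intersection numbers -/
noncomputable def PP (ρ : Γ → (K ≃ₐ[ℂ] K)) (H : Submodule ℂ K) (W : ℕ → ℕ → Submodule ℂ K) (μ : ℕ → ℕ)
    (i : ℕ) (s : Multiset Γ) (τ : ℕ) : ℝ := ulim (QQ ρ H W μ i τ s)

theorem PP_tendsto (hF : NFam n ρ H W M β) {μ : ℕ → ℕ} (hμ : ∀ k, k + 1 ≤ μ k) {i : ℕ}
    {s : Multiset Γ} (h : i + s.card = n) (τ : ℕ) :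
    Tendsto (QQ ρ H W μ i τ s) (hyperfilter ℕ : Filter ℕ) (𝓝 (PP ρ H W μ i s τ)) := by
  obtain ⟨C, hC⟩ := QQ_bdd hF hμ i s h
  exact ulim_spec (fun k => QQ_nonneg k) (hC τ)

theorem PP_nonneg (hF : NFam n ρ H W M β) {μ : ℕ → ℕ} (hμ : ∀ k, k + 1 ≤ μ k) {i : ℕ}
    {s : Multiset Γ} (h : i + s.card = n) (τ : ℕ) : 0 ≤ PP ρ H W μ i s τ :=
  ge_of_tendsto' (PP_tendsto hF hμ h τ) fun k => QQ_nonneg k

theorem PP_antitone (hF : NFam n ρ H W M β) {μ : ℕ → ℕ} (hμ : ∀ k, k + 1 ≤ μ k) {i : ℕ}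
    {s : Multiset Γ} (h : i + s.card = n) : Antitone (PP ρ H W μ i s) := by
  intro τ τ' hτ
  refine le_of_tendsto_of_tendsto' (PP_tendsto hF hμ h τ') (PP_tendsto hF hμ h τ) fun k => ?_
  unfold QQ
  refine div_le_div_of_nonneg_right ?_ (by positivity)
  exact_mod_cast NN_mono hF (one_le hμ k) (Nat.div_le_div_left (by omega) (by omega)) h

/-- the limit for small multiples of `H` -/
noncomputable def GG (ρ : Γ → (K ≃ₐ[ℂ] K)) (H : Submodule ℂ K) (W : ℕ → ℕ → Submodule ℂ K) (μ : ℕ → ℕ)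
    (i : ℕ) (s : Multiset Γ) : ℝ := ⨅ τ, PP ρ H W μ i s τ

theorem GG_tendsto (hF : NFam n ρ H W M β) {μ : ℕ → ℕ} (hμ : ∀ k, k + 1 ≤ μ k) {i : ℕ}
    {s : Multiset Γ} (h : i + s.card = n) :
    Tendsto (PP ρ H W μ i s) atTop (𝓝 (GG ρ H W μ i s)) :=
  tendsto_atTop_ciInf (PP_antitone hF hμ h)
    ⟨0, by rintro _ ⟨τ, rfl⟩; exact PP_nonneg hF hμ h τ⟩

theorem GG_le (hF : NFam n ρ H W M β) {μ : ℕ → ℕ} (hμ : ∀ k, k + 1 ≤ μ k) {i : ℕ}
    {s : Multiset Γ} (h : i + s.card = n) (τ : ℕ) : GG ρ H W μ i s ≤ PP ρ H W μ i s τ :=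
  ciInf_le ⟨0, by rintro _ ⟨τ, rfl⟩; exact PP_nonneg hF hμ h τ⟩ τ

theorem GG_zero (hF : NFam n ρ H W M β) {μ : ℕ → ℕ} (hμ : ∀ k, k + 1 ≤ μ k)
    {s : Multiset Γ} (h : s.card = n) : GG ρ H W μ 0 s = MM (s.map (AA ρ H)) := by
  have h0 : 0 + s.card = n := by omega
  have h1 : ∀ τ, PP ρ H W μ 0 s τ = MM (s.map (AA ρ H)) := by
    intro τ
    have h2 := PP_tendsto hF hμ h0 τ
    have h3 : QQ ρ H W μ 0 τ s = fun _ => (MM (s.map (AA ρ H)) : ℝ) := by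
      funext k
      unfold QQ NN
      rw [Multiset.replicate_zero, zero_add, pow_zero, div_one]
    rw [h3] at h2
    exact tendsto_nhds_unique h2 tendsto_const_nhds
  have h2 := GG_tendsto hF hμ h0
  have h3 : PP ρ H W μ 0 s = fun _ => (MM (s.map (AA ρ H)) : ℝ) := funext h1
  rw [h3] at h2
  exact tendsto_nhds_unique h2 tendsto_const_nhds

theorem GG_four (hF : NFam n ρ H W M β) {μ : ℕ → ℕ} (hμ : ∀ k, k + 1 ≤ μ k) {i : ℕ} {s : Multiset Γ}
    (h : i + s.card + 2 = n) (a b c d : Γ) :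
    GG ρ H W μ i (a ::ₘ b ::ₘ s) * GG ρ H W μ i (c ::ₘ d ::ₘ s) ≤
      2 * (GG ρ H W μ i (a ::ₘ c ::ₘ s) * GG ρ H W μ i (b ::ₘ d ::ₘ s) +
        GG ρ H W μ i (a ::ₘ d ::ₘ s) * GG ρ H W μ i (b ::ₘ c ::ₘ s)) := by
  have hc : ∀ a b : Γ, i + (a ::ₘ b ::ₘ s).card = n := fun a b => by
    rw [Multiset.card_cons, Multiset.card_cons]; omega
  have hPP : ∀ τ, PP ρ H W μ i (a ::ₘ b ::ₘ s) τ * PP ρ H W μ i (c ::ₘ d ::ₘ s) τ ≤
      2 * (PP ρ H W μ i (a ::ₘ c ::ₘ s) τ * PP ρ H W μ i (b ::ₘ d ::ₘ s) τ +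
        PP ρ H W μ i (a ::ₘ d ::ₘ s) τ * PP ρ H W μ i (b ::ₘ c ::ₘ s) τ) := by
    intro τ
    refine le_of_tendsto_of_tendsto' ((PP_tendsto hF hμ (hc a b) τ).mul
      (PP_tendsto hF hμ (hc c d) τ)) ((((PP_tendsto hF hμ (hc a c) τ).mul
      (PP_tendsto hF hμ (hc b d) τ)).add ((PP_tendsto hF hμ (hc a d) τ).mul
      (PP_tendsto hF hμ (hc b c) τ))).const_mul 2) fun k => ?_
    unfold QQ
    have h1 := NN_four hF (one_le hμ k) (b := μ k / (τ + 1)) h a b c d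
    have h2 : ((NN ρ H W i (μ k) (μ k / (τ + 1)) (a ::ₘ b ::ₘ s) : ℝ) *
      NN ρ H W i (μ k) (μ k / (τ + 1)) (c ::ₘ d ::ₘ s)) ≤
      2 * ((NN ρ H W i (μ k) (μ k / (τ + 1)) (a ::ₘ c ::ₘ s) : ℝ) *
        NN ρ H W i (μ k) (μ k / (τ + 1)) (b ::ₘ d ::ₘ s) +
        NN ρ H W i (μ k) (μ k / (τ + 1)) (a ::ₘ d ::ₘ s) *
          NN ρ H W i (μ k) (μ k / (τ + 1)) (b ::ₘ c ::ₘ s)) := by
      exact_mod_cast h1
    have hm : (0 : ℝ) < μ k := by exact_mod_cast one_le hμ k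
    have hm' : (0 : ℝ) < (μ k : ℝ) ^ i * (μ k : ℝ) ^ i := by positivity
    rw [div_mul_div_comm, div_mul_div_comm, div_mul_div_comm, ← add_div, ← mul_div_assoc]
    exact div_le_div_of_nonneg_right h2 hm'.le
  exact le_of_tendsto_of_tendsto' ((GG_tendsto hF hμ (hc a b)).mul (GG_tendsto hF hμ (hc c d)))
    ((((GG_tendsto hF hμ (hc a c)).mul (GG_tendsto hF hμ (hc b d))).add
      ((GG_tendsto hF hμ (hc a d)).mul (GG_tendsto hF hμ (hc b c)))).const_mul 2) hPP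

theorem GG_mixed (hF : NFam n ρ H W M β) {μ : ℕ → ℕ} (hμ : ∀ k, k + 1 ≤ μ k) {i : ℕ} {s : Multiset Γ}
    (h : i + s.card + 2 = n) (a b c : Γ) :
    GG ρ H W μ i (a ::ₘ b ::ₘ s) * GG ρ H W μ (i + 1) (c ::ₘ s) ≤
      2 * (GG ρ H W μ i (a ::ₘ c ::ₘ s) * GG ρ H W μ (i + 1) (b ::ₘ s) +
        GG ρ H W μ i (b ::ₘ c ::ₘ s) * GG ρ H W μ (i + 1) (a ::ₘ s)) := by
  have hc : ∀ a b : Γ, i + (a ::ₘ b ::ₘ s).card = n := fun a b => by
    rw [Multiset.card_cons, Multiset.card_cons]; omega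
  have hc' : ∀ a : Γ, i + 1 + (a ::ₘ s).card = n := fun a => by
    rw [Multiset.card_cons]; omega
  have hPP : ∀ τ, PP ρ H W μ i (a ::ₘ b ::ₘ s) τ * PP ρ H W μ (i + 1) (c ::ₘ s) τ ≤
      2 * (PP ρ H W μ i (a ::ₘ c ::ₘ s) τ * PP ρ H W μ (i + 1) (b ::ₘ s) τ +
        PP ρ H W μ i (b ::ₘ c ::ₘ s) τ * PP ρ H W μ (i + 1) (a ::ₘ s) τ) := by
    intro τ
    refine le_of_tendsto_of_tendsto' ((PP_tendsto hF hμ (hc a b) τ).mul
      (PP_tendsto hF hμ (hc' c) τ)) ((((PP_tendsto hF hμ (hc a c) τ).mul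
      (PP_tendsto hF hμ (hc' b) τ)).add ((PP_tendsto hF hμ (hc b c) τ).mul
      (PP_tendsto hF hμ (hc' a) τ))).const_mul 2) fun k => ?_
    unfold QQ
    have h1 := NN_mixed hF (one_le hμ k) (b := μ k / (τ + 1)) h a b c
    have h2 : ((NN ρ H W i (μ k) (μ k / (τ + 1)) (a ::ₘ b ::ₘ s) : ℝ) *
      NN ρ H W (i + 1) (μ k) (μ k / (τ + 1)) (c ::ₘ s)) ≤
      2 * ((NN ρ H W i (μ k) (μ k / (τ + 1)) (a ::ₘ c ::ₘ s) : ℝ) *
        NN ρ H W (i + 1) (μ k) (μ k / (τ + 1)) (b ::ₘ s) +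
        NN ρ H W i (μ k) (μ k / (τ + 1)) (b ::ₘ c ::ₘ s) *
          NN ρ H W (i + 1) (μ k) (μ k / (τ + 1)) (a ::ₘ s)) := by
      exact_mod_cast h1
    have hm : (0 : ℝ) < μ k := by exact_mod_cast one_le hμ k
    have hm' : (0 : ℝ) < (μ k : ℝ) ^ i * (μ k : ℝ) ^ (i + 1) := by positivity
    rw [div_mul_div_comm, div_mul_div_comm, div_mul_div_comm, ← add_div, ← mul_div_assoc]
    exact div_le_div_of_nonneg_right h2 hm'.le
  exact le_of_tendsto_of_tendsto' ((GG_tendsto hF hμ (hc a b)).mul (GG_tendsto hF hμ (hc' c)))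
    ((((GG_tendsto hF hμ (hc a c)).mul (GG_tendsto hF hμ (hc' b))).add
      ((GG_tendsto hF hμ (hc b c)).mul (GG_tendsto hF hμ (hc' a)))).const_mul 2) hPP

theorem GG_trans_le (hF : NFam n ρ H W M β) {μ : ℕ → ℕ} (hμ : ∀ k, k + 1 ≤ μ k) {i : ℕ}
    {s : Multiset Γ} (h : i + s.card = n) (t : Γ) :
    GG ρ H W μ i (s.map fun x => x + t) ≤ GG ρ H W μ i s := by
  have hs : i + (s.map fun x => x + t).card = n := by rw [Multiset.card_map, h]
  refine le_ciInf fun τ => ?_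
  obtain ⟨C, hC⟩ := NN_trans hF t (2 * τ + 1)
  refine (GG_le hF hμ hs (4 * C * (τ + 1))).trans ?_
  refine le_of_tendsto_of_tendsto (PP_tendsto hF hμ hs _) (PP_tendsto hF hμ h τ) ?_
  filter_upwards [ev_ge (4 * C * (τ + 1))] with k hk
  have hk' : 4 * C * (τ + 1) ≤ μ k := hk.trans ((Nat.le_succ k).trans (hμ k))
  unfold QQ
  refine div_le_div_of_nonneg_right ?_ (by positivity)
  have h1 := hC i (μ k) (μ k / (4 * C * (τ + 1) + 1)) s (one_le hμ k) h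
  have h2 : C * (μ k / (4 * C * (τ + 1) + 1) + 1) + μ k / (2 * τ + 1 + 1) ≤ μ k / (τ + 1) := by
    rw [Nat.le_div_iff_mul_le (Nat.succ_pos τ)]
    obtain ⟨x, hx⟩ : ∃ x, x = μ k / (4 * C * (τ + 1) + 1) := ⟨_, rfl⟩
    obtain ⟨z, hz⟩ : ∃ z, z = μ k / (2 * τ + 1 + 1) := ⟨_, rfl⟩
    have e1 : (4 * C * (τ + 1) + 1) * x ≤ μ k := by rw [hx]; exact Nat.mul_div_le _ _
    have e2 : (2 * τ + 1 + 1) * z ≤ μ k := by rw [hz]; exact Nat.mul_div_le _ _
    rw [← hx, ← hz, Nat.succ_eq_add_one]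
    have e3 : 4 * ((C * (x + 1) + z) * (τ + 1)) =
        4 * C * (τ + 1) * x + 4 * C * (τ + 1) + 2 * ((2 * τ + 1 + 1) * z) := by ring
    have e4 : 4 * C * (τ + 1) * x ≤ μ k := by
      refine le_trans ?_ e1
      exact Nat.mul_le_mul_right _ (Nat.le_succ _)
    omega
  exact_mod_cast h1.trans (NN_mono hF (one_le hμ k) h2 h)

theorem GG_trans (hF : NFam n ρ H W M β) {μ : ℕ → ℕ} (hμ : ∀ k, k + 1 ≤ μ k) {i : ℕ}
    {s : Multiset Γ} (h : i + s.card = n) (t : Γ) :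
    GG ρ H W μ i (s.map fun x => x + t) = GG ρ H W μ i s := by
  refine le_antisymm (GG_trans_le hF hμ h t) ?_
  have h1 := GG_trans_le hF hμ (s := s.map fun x => x + t) (by rw [Multiset.card_map, h]) (-t)
  have h2 : (s.map fun x => x + t).map (fun x => x + -t) = s := by
    rw [Multiset.map_map]
    have h3 : ((fun x : Γ => x + -t) ∘ fun x => x + t) = id := by
      funext x
      simp
    rw [h3, Multiset.map_id]
  rwa [h2] at h1

theorem GG_dom (hF : NFam n ρ H W M β) {μ : ℕ → ℕ} (hμ : ∀ k, k + 1 ≤ μ k) {i : ℕ}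
    {s : Multiset Γ} (h : i + 1 + s.card = n) (t : Γ) :
    GG ρ H W μ (i + 1) s ≤ (2 * M + β) * GG ρ H W μ i (t ::ₘ s) := by
  have key : ∀ s : Multiset Γ, i + 1 + s.card = n →
      GG ρ H W μ (i + 1) s ≤ (2 * M + β) * GG ρ H W μ i (0 ::ₘ s) := by
    intro s hs
    have hs' : i + (0 ::ₘ s).card = n := by rw [Multiset.card_cons]; omega
    refine le_of_tendsto_of_tendsto' (GG_tendsto hF hμ hs)
      ((GG_tendsto hF hμ hs').const_mul _) fun τ => ?_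
    exact le_of_tendsto_of_tendsto' (PP_tendsto hF hμ hs τ)
      ((PP_tendsto hF hμ hs' τ).const_mul _) fun k => QQ_step hF hμ hs k
  have h1 := key (s.map fun x => x + -t) (by rw [Multiset.card_map, h])
  rw [GG_trans hF hμ h] at h1
  refine h1.trans (le_of_eq ?_)
  congr 1
  rw [← GG_trans hF hμ (s := t ::ₘ s) (by rw [Multiset.card_cons]; omega) (-t), Multiset.map_cons,
    add_neg_cancel]

/-- positivity -/
theorem GG_pos (hF : NFam n ρ H W M β) {μ : ℕ → ℕ} (hμ : ∀ k, k + 1 ≤ μ k) {j : ℕ}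
    (hpos : 0 < GG ρ H W μ j (Multiset.replicate (n - j) 0)) (hj : j ≤ n) :
    ∀ i ≤ j, ∀ s : Multiset Γ, i + s.card = n → 0 < GG ρ H W μ i s := by
  classical
  -- the case `i = j`
  have h1 : ∀ s : Multiset Γ, j + s.card = n → 0 < GG ρ H W μ j s := by
    intro s hs
    obtain ⟨C, hC⟩ := NN_hyp hF s
    have hrep : j + (Multiset.replicate (n - j) (0 : Γ)).card = n := by
      rw [Multiset.card_replicate]; omega
    have e1 : Multiset.replicate s.card (0 : Γ) = Multiset.replicate (n - j) 0 := by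
      congr 1; omega
    have h2 : GG ρ H W μ j (Multiset.replicate (n - j) 0) ≤ C * GG ρ H W μ j s := by
      refine le_of_tendsto_of_tendsto' (GG_tendsto hF hμ hrep)
        ((GG_tendsto hF hμ hs).const_mul _) fun τ => ?_
      refine le_of_tendsto_of_tendsto' (PP_tendsto hF hμ hrep τ)
        ((PP_tendsto hF hμ hs τ).const_mul _) fun k => ?_
      unfold QQ
      have h3 := hC j (μ k) (μ k / (τ + 1)) 0 (one_le hμ k) (by rw [Multiset.card_zero]; omega)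
      rw [add_zero, add_zero, e1] at h3
      have h4 : (NN ρ H W j (μ k) (μ k / (τ + 1)) (Multiset.replicate (n - j) 0) : ℝ) ≤
          C * NN ρ H W j (μ k) (μ k / (τ + 1)) s := by exact_mod_cast h3
      rw [← mul_div_assoc]
      exact div_le_div_of_nonneg_right h4 (by positivity)
    by_contra hc
    push Not at hc
    have h3 := mul_nonpos_of_nonneg_of_nonpos (Nat.cast_nonneg C (α := ℝ)) hc
    linarith
  -- descending induction
  have h2 : ∀ l ≤ j, ∀ s : Multiset Γ, j - l + s.card = n → 0 < GG ρ H W μ (j - l) s := by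
    intro l
    induction l with
    | zero =>
      intro _ s hs
      exact h1 s hs
    | succ l ih =>
      intro hl s hs
      obtain ⟨t, s', rfl⟩ : ∃ t s', s = t ::ₘ s' := by
        have h3 : 0 < s.card := by omega
        obtain ⟨t, ht⟩ := Multiset.card_pos_iff_exists_mem.1 h3
        exact ⟨t, s.erase t, (Multiset.cons_erase ht).symm⟩
      rw [Multiset.card_cons] at hs
      have h3 := ih (by omega) s' (by omega)
      have e : j - l = j - (l + 1) + 1 := by omega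
      rw [e] at h3
      have h4 := GG_dom hF hμ (i := j - (l + 1)) (s := s') (by omega) t
      by_contra hc
      push Not at hc
      have h5 : (0 : ℝ) ≤ 2 * M + β := by positivity
      have h6 := mul_nonpos_of_nonneg_of_nonpos h5 hc
      linarith
  intro i hi s hs
  have h3 := h2 (j - i) (by omega) s (by omega)
  have e : j - (j - i) = i := by omega
  rwa [e] at h3

end fam

end Pool.Agent.T2H08.CM
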