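import Pool.Agent.T2H06.DYG.ConvC
import Pool.Agent.T2H06.DYG.Lor
import Pool.Agent.T2H06.DYG.Chain
import Pool.Agent.T2H06.DYN.Main
import Pool.Agent.T2H08.CM.LimB

/-!
The growth rates of all elements of the group are bounded by means of the growth rates of the first
degrees with `j` factors `D`. (The file follows `Pool/Agent/T2H06/DYG/Main.lean`.)
-/

set_option autoImplicit false
set_option linter.overlappingInstances false
set_option linter.unusedSectionVars false
set_option linter.unusedVariables false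

open FF Module MvPolynomial Filter Topology Pool.Agent.W602.GT Pool.Agent.W603.LV Pool.Agent.W619.PQ
open Pool.Agent.Y172 Pool.Agent.Y191 Pool.Agent.R887
open Pool.Agent.T2H06.DYG (GLor cc cc_lim cc_nonneg cc_zero cc_add cc_smul cc_exch chain rate_linear
  SubL small ev_ge)
open Pool.Agent.T2H06.DYN (ulim ulim_spec MM Dom im im_im im_refl im_fg VH VS Lor LD tri tri_card
  exists_lin exists_trans exists_hyp_dom VH_fg VS_fg VS_mono DynDegree iterDegrees)

namespace Pool.Agent.T2H08.CM

section fam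

variable {Γ : Type} [AddCommGroup Γ] {K : Type} [Field K] [Algebra ℂ K] {n : ℕ}
  {ρ : Γ → (K ≃ₐ[ℂ] K)} {H : Submodule ℂ K} {W : ℕ → ℕ → Submodule ℂ K} {M β : ℕ}

theorem glor (hF : NFam n ρ H W M β) {μ : ℕ → ℕ} (hμ : ∀ k, k + 1 ≤ μ k) {i : ℕ} (hi : i ≤ n)
    (hpos : ∀ s : Multiset Γ, i + s.card = n → 0 < GG ρ H W μ i s) :
    GLor (n - i) (GG ρ H W μ i) := by
  refine ⟨fun s hs => hpos s (by omega), fun s t hs => GG_trans hF hμ (by omega) t,
    fun ω a b c d hω => GG_four hF hμ (by omega) a b c d, fun t => ?_⟩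
  obtain ⟨C, hC⟩ := NN_hyp hF {t}
  refine ⟨C + 1, by positivity, fun x ω hω => ?_⟩
  have key : ∀ ω : Multiset Γ, ω.card + 1 = n - i →
      GG ρ H W μ i (0 ::ₘ ω) ≤ C * GG ρ H W μ i (t ::ₘ ω) := by
    intro ω hω
    have h0 : i + (0 ::ₘ ω).card = n := by rw [Multiset.card_cons]; omega
    have ht : i + (t ::ₘ ω).card = n := by rw [Multiset.card_cons]; omega
    refine le_of_tendsto_of_tendsto' (GG_tendsto hF hμ h0) ((GG_tendsto hF hμ ht).const_mul _)
      fun τ => ?_
    refine le_of_tendsto_of_tendsto' (PP_tendsto hF hμ h0 τ)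
      ((PP_tendsto hF hμ ht τ).const_mul _) fun k => ?_
    unfold QQ
    have h3 := hC i (μ k) (μ k / (τ + 1)) ω (one_le hμ k) (by rw [Multiset.card_singleton]; omega)
    rw [Multiset.card_singleton, Multiset.replicate_one, Multiset.singleton_add,
      Multiset.singleton_add] at h3
    have h4 : (NN ρ H W i (μ k) (μ k / (τ + 1)) (0 ::ₘ ω) : ℝ) ≤
        C * NN ρ H W i (μ k) (μ k / (τ + 1)) (t ::ₘ ω) := by exact_mod_cast h3
    rw [← mul_div_assoc]
    exact div_le_div_of_nonneg_right h4 (by positivity)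
  have h1 := key (ω.map fun z => z + -x) (by rw [Multiset.card_map, hω])
  have h2 := GG_trans hF hμ (i := i) (s := x ::ₘ ω) (by rw [Multiset.card_cons]; omega) (-x)
  have h3 := GG_trans hF hμ (i := i) (s := (x + t) ::ₘ ω) (by rw [Multiset.card_cons]; omega) (-x)
  rw [Multiset.map_cons] at h2 h3
  have e1 : x + -x = 0 := add_neg_cancel x
  have e2 : x + t + -x = t := by abel
  rw [e1] at h2
  rw [e2] at h3
  rw [h2, h3] at h1
  have h4 := hpos ((x + t) ::ₘ ω) (by rw [Multiset.card_cons]; omega)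
  linarith

/-- the growth rates of all elements are bounded by the growth rate of the first degrees with `j`
factors `K_X` -/
theorem rates (hF : NFam n ρ H W M β) {μ : ℕ → ℕ} (hμ : ∀ k, k + 1 ≤ μ k) {j : ℕ} (hj : j ≤ n)
    (hpos : ∀ i ≤ j, ∀ s : Multiset Γ, i + s.card = n → 0 < GG ρ H W μ i s) (a : Γ) {d : ℕ → ℝ}
    (hd : ∀ p ≤ n, Tendsto (fun m : ℕ => LD (fun s : Multiset ℤ =>
      GG ρ H W μ 0 (s.map fun k => k • a)) n p m / m) atTop (𝓝 (d p))) :
    (j < n → ∀ p ≤ n, d p ≤ n * cc (n - j) (GG ρ H W μ j) a) ∧ (j = n → ∀ p ≤ n, d p ≤ 0) := by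
  classical
  have hL : ∀ i ≤ j, Lor (n - i) (fun s : Multiset ℤ => GG ρ H W μ i (s.map fun k => k • a)) :=
    fun i hi => (glor hF hμ (hi.trans hj) (hpos i hi)).cyc a
  have hex : ∀ p, ∃ r : ℝ, p ≤ n - j → Tendsto (fun m : ℕ => LD (fun s : Multiset ℤ =>
      GG ρ H W μ j (s.map fun k => k • a)) (n - j) p m / m) atTop (𝓝 r) := by
    intro p
    by_cases hp : p ≤ n - j
    · obtain ⟨r, hr⟩ := (hL j le_rfl).exists_rate hp
      exact ⟨r, fun _ => hr⟩
    · exact ⟨0, fun h => absurd h hp⟩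
  choose r hr using hex
  have hch := chain hj (F := fun i s => GG ρ H W μ i (s.map fun k => k • a)) hL (by
    intro i hi ω x y z hω
    have h1 := GG_mixed hF hμ (i := i) (s := ω.map fun k => k • a) (by
      rw [Multiset.card_map]; omega) (x • a) (y • a) (z • a)
    simp only [Multiset.map_cons]
    exact h1) hd hr
  have hlin := rate_linear (hL j le_rfl) hr
  constructor
  · intro hjn p hp
    obtain ⟨q, hq, hle⟩ := hch p hp
    have h1 : r 1 = cc (n - j) (GG ρ H W μ j) a :=
      tendsto_nhds_unique (hr 1 (by omega)) (cc_lim (glor hF hμ hj (hpos j le_rfl)) (by omega) a)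
    have h2 := cc_nonneg (glor hF hμ hj (hpos j le_rfl)) (by omega) a
    refine hle.trans ((hlin q hq).trans ?_)
    rw [h1]
    refine mul_le_mul_of_nonneg_right ?_ h2
    exact_mod_cast (show q ≤ n by omega)
  · intro hjn p hp
    obtain ⟨q, hq, hle⟩ := hch p hp
    have hq0 : q = 0 := by omega
    refine hle.trans ((hlin q hq).trans ?_)
    rw [hq0, Nat.cast_zero, zero_mul]

end fam

end Pool.Agent.T2H08.CM
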