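import Pool.Agent.T2H06.DYL.PosL
import Pool.Agent.T2H06.DYG.Main
import Pool.Agent.T2H08.CM.Rates

/-!
The linear systems of the sections of `m D + b H` for a Cartier divisor `D` whose class is preserved
by a group of birational maps.
-/

set_option autoImplicit false
set_option linter.overlappingInstances false
set_option linter.unusedSectionVars false
set_option linter.unusedVariables false

open Filter Topology FF MvPolynomial Pool.Agent.W602.GT Pool.Agent.W603.LV Pool.Agent.W619.PQ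
open Pool.Agent.Y172 Pool.Agent.Y191 Pool.Agent.R887
open Pool.Agent.T2H06.DYN (MM MM_dom MM_dom_rep MM_four Dom VH VH_fg mem_VH pen_VH exists_ord_le
  fg_of_bound dominate' centred_of_through degreeOver_md le_MM sel_rep Sel Pen exists_pole pl pl_ord pl_divisorial
  im mem_im exists_hyp_dom)
open Pool.Agent.T2H06.DYL

namespace Pool.Agent.T2H08.CM

section

variable {K : Type} [Field K] [Algebra ℂ K] {N n : ℕ} {y : Fin (N + 1) → K}

/-- **The transported sections.** -/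
theorem trans_num (hy : NormalModel y) (hn : Algebra.trdeg ℂ K = n)
    {D : Place ℂ K → ℚ} (hD : IsDivisor y D) (hcar : Cartier y n D) {i : Fin (N + 1)}
    (hi : y i ≠ 0) {A : Place ℂ K → ℚ} (hA : Effective y A)
    (hAP : ∀ P l, IsPrimeDivisor y P → Centred y l P → A P = P.ord (y i / y l))
    (g : K ≃ₐ[ℂ] K) (hle : PullLe y D (g : K →ₐ[ℂ] K) 1) (τ : ℕ) :
    ∃ C : ℕ, ∀ m b, 1 ≤ m → ∃ h, Dom n (im g (VF y (m • D + b • A)))
      (VF y (m • D + (C * (b + 1) + m / (τ + 1)) • A)) 1 1 h := by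
  classical
  obtain ⟨a, ha, w, hw, hle'⟩ := hle i hi (τ + 1) (by omega)
  obtain ⟨C0, g0, hg0, hCg⟩ := exists_pole hy hi g
  -- the zeros of `w`
  obtain ⟨F, s, hF, hFs⟩ : ∃ (F : K) (s : ℕ), F ≠ 0 ∧ ∀ P, IsPrimeDivisor y P →
      max (P.ord w : ℚ) 0 ≤ P.ord F + s * A P := by
    refine dominate' hy (A' := fun P => max (P.ord w : ℚ) 0) ⟨fun P _ => le_max_right _ _,
      (finite_ord hy hw).subset ?_⟩ hi hA hAP
    rintro P ⟨hP, h⟩
    refine ⟨hP, fun h0 => h ?_⟩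
    change max ((P.ord w : ℤ) : ℚ) 0 = 0
    rw [h0]
    simp
  obtain ⟨c, hc⟩ : ∃ c, c = a * (τ + 1) := ⟨_, rfl⟩
  have hc0 : 1 ≤ c := by rw [hc]; exact Nat.mul_pos ha (Nat.succ_pos τ)
  refine ⟨C0 + c * (s + 1), fun m b hm => ?_⟩
  obtain ⟨k, hk⟩ : ∃ k, k = m / c := ⟨_, rfl⟩
  obtain ⟨s', hs'⟩ : ∃ s', s' = m % c := ⟨_, rfl⟩
  have hms : c * k + s' = m := by rw [hk, hs']; exact Nat.div_add_mod m c
  have hs'c : s' ≤ c := by rw [hs']; exact (Nat.mod_lt _ hc0).le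
  have hka : k * a ≤ m / (τ + 1) := by
    rw [Nat.le_div_iff_mul_le (Nat.succ_pos τ)]
    calc k * a * (τ + 1) = c * k := by rw [hc]; ring
      _ ≤ m := by omega
  obtain ⟨u, hu⟩ : ∃ u, u = w ^ k * g0 ^ b * F ^ s' := ⟨_, rfl⟩
  have hu0 : u ≠ 0 := by
    rw [hu]
    exact mul_ne_zero (mul_ne_zero (pow_ne_zero _ hw) (pow_ne_zero _ hg0)) (pow_ne_zero _ hF)
  have huo : ∀ P : Place ℂ K, P.ord u = k * P.ord w + b * P.ord g0 + s' * P.ord F := by
    intro P
    rw [hu, P.ord_mul (mul_ne_zero (pow_ne_zero _ hw) (pow_ne_zero _ hg0)) (pow_ne_zero _ hF),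
      P.ord_mul (pow_ne_zero _ hw) (pow_ne_zero _ hg0), P.ord_pow, P.ord_pow, P.ord_pow]
  refine ⟨u⁻¹, inv_ne_zero hu0, fun P hP f hf hf0 => ?_⟩
  obtain ⟨f₁, hf₁, rfl⟩ := mem_im.1 hf
  have hf₁0 : f₁ ≠ 0 := fun h => hf0 (by rw [h, map_zero])
  refine ⟨u * g f₁, fun R hR => Or.inr ?_, mul_ne_zero hu0 hf0, ?_⟩
  · have hRd := hR.divisorial hy hn
    obtain ⟨l, hl⟩ := exists_centred hy R
    obtain ⟨l', hl'⟩ := exists_centred hy (pl g R)
    have hPd : Divisorial n (pl g R) := pl_divisorial g hRd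
    obtain ⟨e, he⟩ := hcar (pl g R) hPd
    have h3 := sec_ge hy hi hAP hf₁ hf₁0 hl' he
    rw [pl_ord, pl_ord, pl_ord] at h3
    have h4 := hle' R (pl g R) 1 l e hR ⟨le_rfl, fun f => by rw [Nat.cast_one, one_mul]; rfl⟩ hl he
    have h5 := hCg R l' l hl' hl
    have hA0 := hA.1 R hR
    have h6 := hFs R hR
    rw [R.ord_mul hu0 hf0, huo, Pi.add_apply, Pi.smul_apply, Pi.smul_apply, nsmul_eq_mul,
      nsmul_eq_mul]
    rw [← hAP R l hR hl] at h4
    have h5' : ((R.ord (g (y i / y l')) : ℤ) : ℚ) ≤ C0 * A R + R.ord g0 := by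
      rw [hAP R l hR hl]
      exact_mod_cast h5
    obtain ⟨E, hE⟩ : ∃ E : ℚ, E = ((R.ord (g e) : ℤ) : ℚ) := ⟨_, rfl⟩
    obtain ⟨H, hH⟩ : ∃ H : ℚ, H = ((R.ord (g (y i / y l')) : ℤ) : ℚ) := ⟨_, rfl⟩
    obtain ⟨X, hX⟩ : ∃ X : ℚ, X = ((R.ord (g f₁) : ℤ) : ℚ) := ⟨_, rfl⟩
    obtain ⟨w', hw'⟩ : ∃ w' : ℚ, w' = ((R.ord w : ℤ) : ℚ) := ⟨_, rfl⟩
    obtain ⟨z, hz⟩ : ∃ z : ℚ, z = ((R.ord g0 : ℤ) : ℚ) := ⟨_, rfl⟩
    obtain ⟨v, hv⟩ : ∃ v : ℚ, v = ((R.ord F : ℤ) : ℚ) := ⟨_, rfl⟩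
    have h3' : -((m : ℚ) * E + b * H) ≤ X := by
      rw [hE, hH, hX]
      exact_mod_cast h3
    have h4' : (a : ℚ) * ((τ + 1) * E) ≤ a * ((τ + 1) * D R + A R) + w' := by
      have := h4
      rw [hw', hE]
      push_cast at this
      rw [one_mul] at this
      exact this
    rw [← hw', ← hv] at h6
    rw [← hH, ← hz] at h5'
    push_cast
    rw [← hX, ← hw', ← hz, ← hv]
    have hcq : (c : ℚ) = a * (τ + 1) := by rw [hc]; push_cast; ring
    have hcp : (0 : ℚ) < c := by exact_mod_cast hc0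
    have hc1 : (1 : ℚ) ≤ c := by exact_mod_cast hc0
    have ha1 : (a : ℚ) ≤ c := by
      rw [hcq]
      have : (1 : ℚ) ≤ τ + 1 := by
        have : (0 : ℚ) ≤ τ := Nat.cast_nonneg _
        linarith
      nlinarith [show (0 : ℚ) ≤ a from Nat.cast_nonneg _]
    have hmq : (m : ℚ) = c * k + s' := by exact_mod_cast hms.symm
    have hkq : (k : ℚ) * a ≤ ((m / (τ + 1) : ℕ) : ℚ) := by exact_mod_cast hka
    have hk0 : (0 : ℚ) ≤ k := Nat.cast_nonneg _
    have hs0 : (0 : ℚ) ≤ s' := Nat.cast_nonneg _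
    have hsc : (s' : ℚ) ≤ c := by exact_mod_cast hs'c
    have hb0 : (0 : ℚ) ≤ b := Nat.cast_nonneg _
    have hsn : (0 : ℚ) ≤ s := Nat.cast_nonneg _
    have h7 : (c : ℚ) * E ≤ c * D R + a * A R + w' := by
      rw [hcq]
      refine le_trans (le_of_eq ?_) (h4'.trans (le_of_eq ?_)) <;> ring
    -- `E ≤ D R + A R + max w' 0`
    have h8 : E ≤ D R + (v + (s + 1) * A R) := by
      have h9 : (c : ℚ) * E ≤ c * (D R + (v + (s + 1) * A R)) := by
        have h10 : w' ≤ c * (v + s * A R) := by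
          have h11 : 0 ≤ v + s * A R := (le_max_right _ _).trans h6
          have h12 : w' ≤ v + s * A R := (le_max_left _ _).trans h6
          nlinarith
        have h13 : (a : ℚ) * A R ≤ c * A R := mul_le_mul_of_nonneg_right ha1 hA0
        have e1 : (c : ℚ) * (D R + (v + (s + 1) * A R)) =
          c * D R + c * A R + c * (v + s * A R) := by ring
        rw [e1]
        linarith
      exact le_of_mul_le_mul_left h9 hcp
    have h9 := mul_le_mul_of_nonneg_left h7 hk0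
    have h10 := mul_le_mul_of_nonneg_left h8 hs0
    have h11 := mul_le_mul_of_nonneg_left h5' hb0
    have h12 := mul_le_mul_of_nonneg_right hkq hA0
    have h13 : (s' : ℚ) * ((s + 1) * A R) ≤ c * (s + 1) * A R := by
      have : (s' : ℚ) * ((s + 1) * A R) = s' * (s + 1) * A R := by ring
      rw [this]
      refine mul_le_mul_of_nonneg_right (mul_le_mul_of_nonneg_right hsc (by linarith)) hA0
    have h14 : (0 : ℚ) ≤ C0 * A R := mul_nonneg (Nat.cast_nonneg _) hA0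
    have h15 : (0 : ℚ) ≤ c * (s + 1) * b * A R := by positivity
    have e2 : (m : ℚ) * E = k * (c * E) + s' * E := by rw [hmq]; ring
    rw [e2] at h3'
    have e3 : (m : ℚ) * D R = k * (c * D R) + s' * D R := by rw [hmq]; ring
    rw [e3]
    nlinarith
  · rw [P.ord_inv, P.ord_mul hu0 hf0]
    push_cast
    linarith

end

end Pool.Agent.T2H08.CM
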