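import Pool.Agent.T2H06.DYN.Lim

/-!
Families of linear systems which are preserved, up to numerical equivalence, by the action of a
commutative group: intersection numbers. (The file follows `Pool/Agent/T2H06/DYG/Lim.lean`.)
-/

set_option autoImplicit false
set_option linter.overlappingInstances false
set_option linter.unusedSectionVars false
set_option linter.unusedVariables false

open Filter Topology FF Module IntermediateField Pool.Agent.R887 Pool.Agent.W602.GT
open Pool.Agent.T2H06.DYN (ulim ulim_spec MM_dom_rep MM_dom MM MM_map MM_four Dom im im_im im_refl im_fg MM_map MM_four)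

namespace Pool.Agent.T2H08.CM

/-- a family of linear systems `W m b`, dominated by a linear system `H`, and its behaviour under
the powers of an automorphism -/
structure NFam {Γ : Type} [AddCommGroup Γ] {K : Type} [Field K] [Algebra ℂ K] (n : ℕ)
    (ρ : Γ → (K ≃ₐ[ℂ] K)) (H : Submodule ℂ K) (W : ℕ → ℕ → Submodule ℂ K) (M β : ℕ) : Prop where
  trdeg : Algebra.trdeg ℂ K = n
  map_zero : ρ 0 = 1
  map_add : ∀ s t, ρ (s + t) = ρ s * ρ t
  fgH : H.FG
  fgW : ∀ m b, 1 ≤ m → (W m b).FG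
  mono : ∀ m b b', b ≤ b' → W m b ≤ W m b'
  dom : ∀ m b, 1 ≤ m → ∃ h, Dom n (W m b) H 1 (m * M + b * β) h
  trans : ∀ (t : Γ) (τ : ℕ), ∃ C : ℕ, ∀ m b, 1 ≤ m → ∃ h,
    Dom n (im (ρ t) (W m b)) (W m (C * (b + 1) + m / (τ + 1))) 1 1 h
  hyp : ∀ t : Γ, ∃ (C : ℕ) (h : K), Dom n H (im (ρ t) H) 1 C h

section fam

variable {Γ : Type} [AddCommGroup Γ] {K : Type} [Field K] [Algebra ℂ K] {n : ℕ}
  {ρ : Γ → (K ≃ₐ[ℂ] K)} {H : Submodule ℂ K}
  {W : ℕ → ℕ → Submodule ℂ K} {M β : ℕ}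

/-- the translates of `H` -/
def AA (ρ : Γ → (K ≃ₐ[ℂ] K)) (H : Submodule ℂ K) (t : Γ) : Submodule ℂ K := im (ρ t) H

theorem AA_zero (hF : NFam n ρ H W M β) : AA ρ H 0 = H := by
  unfold AA
  rw [hF.map_zero]
  exact im_refl H

theorem AA_add (hF : NFam n ρ H W M β) (t s : Γ) : AA ρ H (t + s) = im (ρ s) (AA ρ H t) := by
  unfold AA
  rw [im_im]
  congr 1
  rw [add_comm, hF.map_add]
  rfl

theorem AA_fg (hF : NFam n ρ H W M β) (t : Γ) : (AA ρ H t).FG := im_fg hF.fgH

theorem map_AA_fg (hF : NFam n ρ H W M β) (s : Multiset Γ) : ∀ U ∈ s.map (AA ρ H), U.FG := by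
  intro U hU
  obtain ⟨t, -, rfl⟩ := Multiset.mem_map.1 hU
  exact AA_fg hF t

theorem rep_fg (hF : NFam n ρ H W M β) {m : ℕ} (hm : 1 ≤ m) (b i : ℕ) (s : Multiset Γ) :
    ∀ U ∈ Multiset.replicate i (W m b) + s.map (AA ρ H), U.FG := by
  intro U hU
  rcases Multiset.mem_add.1 hU with h1 | h1
  · rw [Multiset.eq_of_mem_replicate h1]
    exact hF.fgW m b hm
  · exact map_AA_fg hF s U h1

/-- the intersection number of `i` members of `W m b` and translates of `H` -/
noncomputable def NN (ρ : Γ → (K ≃ₐ[ℂ] K)) (H : Submodule ℂ K) (W : ℕ → ℕ → Submodule ℂ K)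
    (i m b : ℕ) (s : Multiset Γ) : ℕ := MM (Multiset.replicate i (W m b) + s.map (AA ρ H))

theorem NN_card (hF : NFam n ρ H W M β) {i m b : ℕ} {s : Multiset Γ} (h : i + s.card = n) :
    Algebra.trdeg ℂ K = (Multiset.replicate i (W m b) + s.map (AA ρ H)).card := by
  rw [Multiset.card_add, Multiset.card_replicate, Multiset.card_map, h]
  exact hF.trdeg

theorem NN_four (hF : NFam n ρ H W M β) {i m b : ℕ} (hm : 1 ≤ m) {s : Multiset Γ}
    (h : i + s.card + 2 = n) (a₁ a₂ a₃ a₄ : Γ) :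
    NN ρ H W i m b (a₁ ::ₘ a₂ ::ₘ s) * NN ρ H W i m b (a₃ ::ₘ a₄ ::ₘ s) ≤
      2 * (NN ρ H W i m b (a₁ ::ₘ a₃ ::ₘ s) * NN ρ H W i m b (a₂ ::ₘ a₄ ::ₘ s) +
        NN ρ H W i m b (a₁ ::ₘ a₄ ::ₘ s) * NN ρ H W i m b (a₂ ::ₘ a₃ ::ₘ s)) := by
  have e : ∀ a b' : Γ, NN ρ H W i m b (a ::ₘ b' ::ₘ s) =
      MM (AA ρ H a ::ₘ AA ρ H b' ::ₘ (Multiset.replicate i (W m b) + s.map (AA ρ H))) := by
    intro a b'
    unfold NN
    rw [Multiset.map_cons, Multiset.map_cons, Multiset.add_cons, Multiset.add_cons]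
  simp only [e]
  refine MM_four ?_ (rep_fg hF hm b i s) (AA_fg hF _) (AA_fg hF _) (AA_fg hF _) (AA_fg hF _)
  rw [Multiset.card_add, Multiset.card_replicate, Multiset.card_map, h]
  exact hF.trdeg

theorem NN_mixed (hF : NFam n ρ H W M β) {i m b : ℕ} (hm : 1 ≤ m) {s : Multiset Γ}
    (h : i + s.card + 2 = n) (a₁ a₂ a₃ : Γ) :
    NN ρ H W i m b (a₁ ::ₘ a₂ ::ₘ s) * NN ρ H W (i + 1) m b (a₃ ::ₘ s) ≤
      2 * (NN ρ H W i m b (a₁ ::ₘ a₃ ::ₘ s) * NN ρ H W (i + 1) m b (a₂ ::ₘ s) +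
        NN ρ H W i m b (a₂ ::ₘ a₃ ::ₘ s) * NN ρ H W (i + 1) m b (a₁ ::ₘ s)) := by
  have e : ∀ a b' : Γ, NN ρ H W i m b (a ::ₘ b' ::ₘ s) =
      MM (AA ρ H a ::ₘ AA ρ H b' ::ₘ (Multiset.replicate i (W m b) + s.map (AA ρ H))) := by
    intro a b'
    unfold NN
    rw [Multiset.map_cons, Multiset.map_cons, Multiset.add_cons, Multiset.add_cons]
  have e' : ∀ a : Γ, NN ρ H W (i + 1) m b (a ::ₘ s) =
      MM (AA ρ H a ::ₘ W m b ::ₘ (Multiset.replicate i (W m b) + s.map (AA ρ H))) := by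
    intro a
    unfold NN
    rw [Multiset.map_cons, Multiset.add_cons, Multiset.replicate_succ, Multiset.cons_add]
  simp only [e, e']
  have h1 := MM_four (L := Multiset.replicate i (W m b) + s.map (AA ρ H)) (by
    rw [Multiset.card_add, Multiset.card_replicate, Multiset.card_map, h]
    exact hF.trdeg) (rep_fg hF hm b i s) (AA_fg hF a₁) (AA_fg hF a₂) (AA_fg hF a₃)
    (hF.fgW m b hm)
  refine h1.trans (le_of_eq ?_)
  ring

theorem NN_mono (hF : NFam n ρ H W M β) {i m b b' : ℕ} (hm : 1 ≤ m) (hb : b ≤ b') {s : Multiset Γ}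
    (h : i + s.card = n) : NN ρ H W i m b s ≤ NN ρ H W i m b' s := by
  have h1 : Dom n (W m b) (W m b') 1 1 1 := by
    refine ⟨one_ne_zero, fun P _ f hf hf0 => ⟨f, hF.mono m b b' hb hf, hf0, ?_⟩⟩
    rw [P.ord_one, add_zero]
  have h2 := MM_dom_rep hF.trdeg (hF.fgW m b hm) (hF.fgW m b' hm) h1 i
    (R := s.map (AA ρ H)) (by rw [Multiset.card_map, h]) (map_AA_fg hF s)
  rw [one_pow, one_mul, one_mul] at h2
  exact h2

/-- translation -/
theorem NN_trans (hF : NFam n ρ H W M β) (t : Γ) (τ : ℕ) : ∃ C : ℕ, ∀ (i m b : ℕ)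
    (s : Multiset Γ), 1 ≤ m → i + s.card = n →
      NN ρ H W i m b (s.map (fun x => x + t)) ≤ NN ρ H W i m (C * (b + 1) + m / (τ + 1)) s := by
  obtain ⟨C, hC⟩ := hF.trans (-t) τ
  refine ⟨C, fun i m b s hm h => ?_⟩
  obtain ⟨hh, hd⟩ := hC m b hm
  have h1 := MM_dom_rep hF.trdeg (im_fg (hF.fgW m b hm)) (hF.fgW m _ hm) hd i
    (R := s.map (AA ρ H)) (by rw [Multiset.card_map, h]) (map_AA_fg hF s)
  rw [one_pow, one_mul, one_mul] at h1
  refine le_trans (le_of_eq ?_) h1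
  unfold NN
  have h2 := MM_map (ρ t) (L := Multiset.replicate i (im (ρ (-t)) (W m b)) + s.map (AA ρ H)) (by
    rw [Multiset.card_add, Multiset.card_replicate, Multiset.card_map, h]
    exact hF.trdeg) (by
    intro U hU
    rcases Multiset.mem_add.1 hU with h1 | h1
    · rw [Multiset.eq_of_mem_replicate h1]
      exact im_fg (hF.fgW m b hm)
    · exact map_AA_fg hF s U h1)
  rw [← h2]
  congr 1
  rw [Multiset.map_add, Multiset.map_replicate, Multiset.map_map, Multiset.map_map]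
  have e1 : im (ρ t) (im (ρ (-t)) (W m b)) = W m b := by
    rw [im_im]
    have : (ρ (-t)).trans (ρ t) = (ρ t) * (ρ (-t)) := rfl
    rw [this, ← hF.map_add, add_neg_cancel, hF.map_zero]
    exact im_refl _
  rw [e1]
  congr 1
  refine Multiset.map_congr rfl fun x _ => ?_
  rw [Function.comp_apply, Function.comp_apply, AA_add hF]

/-- one member of `W` is replaced by `H` -/
theorem NN_dom (hF : NFam n ρ H W M β) {i m b : ℕ} (hm : 1 ≤ m) {s : Multiset Γ}
    (h : i + 1 + s.card = n) :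
    NN ρ H W (i + 1) m b s ≤ (m * M + b * β) * NN ρ H W i m b (0 ::ₘ s) := by
  obtain ⟨hh, hd⟩ := hF.dom m b hm
  have h1 := MM_dom hF.trdeg (L := Multiset.replicate i (W m b) + s.map (AA ρ H)) (by
    rw [Multiset.card_add, Multiset.card_replicate, Multiset.card_map]; omega)
    (rep_fg hF hm b i s) (hF.fgW m b hm) hF.fgH hd
  rw [one_mul] at h1
  unfold NN
  rw [Multiset.replicate_succ, Multiset.cons_add, Multiset.map_cons, AA_zero hF, Multiset.add_cons]
  exact h1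

/-- hyperplane sections are replaced by their translates -/
theorem NN_hyp (hF : NFam n ρ H W M β) (s : Multiset Γ) : ∃ C : ℕ, ∀ (i m b : ℕ) (s' : Multiset Γ),
    1 ≤ m → i + s.card + s'.card = n →
      NN ρ H W i m b (Multiset.replicate s.card 0 + s') ≤ C * NN ρ H W i m b (s + s') := by
  induction s using Multiset.induction_on with
  | empty =>
    refine ⟨1, fun i m b s' _ _ => ?_⟩
    rw [Multiset.card_zero, Multiset.replicate_zero, one_mul]
  | cons t s ih =>
    obtain ⟨C, hC⟩ := ih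
    obtain ⟨C', hh, hd⟩ := hF.hyp t
    refine ⟨C * C', fun i m b s' hm hs' => ?_⟩
    rw [Multiset.card_cons] at hs' ⊢
    have e1 : Multiset.replicate (s.card + 1) (0 : Γ) + s' =
        Multiset.replicate s.card 0 + 0 ::ₘ s' := by
      rw [Multiset.replicate_succ, Multiset.cons_add, Multiset.add_cons]
    have h1 := hC i m b (0 ::ₘ s') hm (by rw [Multiset.card_cons]; omega)
    rw [e1]
    refine h1.trans ?_
    rw [mul_assoc]
    refine Nat.mul_le_mul_left _ ?_
    have h2 := MM_dom hF.trdeg (L := Multiset.replicate i (W m b) + (s + s').map (AA ρ H)) (by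
      rw [Multiset.card_add, Multiset.card_replicate, Multiset.card_map, Multiset.card_add]
      omega) (rep_fg hF hm b i _) hF.fgH (AA_fg hF t) hd
    rw [one_mul] at h2
    unfold NN
    rw [Multiset.add_cons, Multiset.map_cons, AA_zero hF, Multiset.add_cons, Multiset.cons_add,
      Multiset.map_cons, Multiset.add_cons]
    exact h2

end fam

end Pool.Agent.T2H08.CM
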