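import Pool.Agent.T2H08.CM.Geo

/-!
**Commuting birational self-maps and the numerical dimension of a Cartier divisor whose class is
preserved.**
-/

set_option autoImplicit false
set_option linter.overlappingInstances false
set_option linter.unusedSectionVars false
set_option linter.unusedVariables false

open Filter Topology FF Module MvPolynomial Pool.Agent.W602.GT Pool.Agent.W603.LV Pool.Agent.W619.PQ
open Pool.Agent.Y172 Pool.Agent.Y191 Pool.Agent.R887
open Pool.Agent.T2H06.DYG (GLor cc cc_lim cc_nonneg cc_zero cc_add cc_smul cc_exch SubL small ev_ge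
  rho_zsmul)
open Pool.Agent.T2H06.DYN (MM MM_dom_rep Dom VH VH_fg dominate' degreeOver_md le_MM sel_rep pen_VH
  Pen im im_refl exists_hyp_dom Lor LD tri tri_card DynDegree iterDegrees)
open Pool.Agent.T2H06.DYL

namespace Pool.Agent.T2H08.CM

section

variable {K : Type} [Field K] [Algebra ℂ K] {N n : ℕ} {y : Fin (N + 1) → K}

/-- the family of the linear systems -/
theorem exists_nfam {Γ : Type} [AddCommGroup Γ] {ρ : Γ → (K ≃ₐ[ℂ] K)}
    (hρ : ∀ s t, ρ (s + t) = ρ s * ρ t)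
    (hy : NormalModel y) (hn : Algebra.trdeg ℂ K = n) {D : Place ℂ K → ℚ} (hD : IsDivisor y D)
    (hcar : Cartier y n D) (hinv : ∀ t, PullLe y D (ρ t : K →ₐ[ℂ] K) 1) {i : Fin (N + 1)}
    (hi : y i ≠ 0) {A : Place ℂ K → ℚ} (hA : Effective y A)
    (hAP : ∀ P l, IsPrimeDivisor y P → Centred y l P → A P = P.ord (y i / y l)) :
    ∃ M β : ℕ, NFam n ρ (VH y) (fun m b => VF y (m • D + b • A)) M β := by
  obtain ⟨s, hlin⟩ := exists_linF (n := n) hy hD hi hA hAP
  have h0 : ρ 0 = 1 := by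
    have h1 := hρ 0 0
    rw [add_zero] at h1
    exact left_eq_mul.1 h1
  refine ⟨s, 1, ⟨hn, h0, hρ, VH_fg, fun m b _ => VF_fg hy hn hD hi hA hAP m b,
    fun m b b' hb f hf P hP => ?_, fun m b _ => ?_,
    fun t τ => trans_num hy hn hD hcar hi hA hAP (ρ t) (hinv t) τ,
    fun t => exists_hyp_dom hy hi (ρ t)⟩⟩
  · rcases hf P hP with h1 | h1
    · exact Or.inl h1
    right
    refine le_trans ?_ h1
    have e : ∀ c : ℕ, (m • D + c • A) P = (m • D) P + c * A P := fun c => by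
      rw [Pi.add_apply, Pi.smul_apply c, nsmul_eq_mul c (A P)]
    rw [e, e]
    have h2 : (b : ℚ) ≤ b' := by exact_mod_cast hb
    have := mul_le_mul_of_nonneg_right h2 (hA.1 P hP)
    linarith
  · obtain ⟨h, hd⟩ := hlin m b
    refine ⟨h, ?_⟩
    rw [mul_one]
    exact hd

/-- the family without linear systems -/
theorem exists_fam0 (hy : NormalModel y) (hn : Algebra.trdeg ℂ K = n) {i : Fin (N + 1)}
    (hi : y i ≠ 0) (g : K ≃ₐ[ℂ] K) :
    T2H06.DYN.Fam n g (VH y) (fun _ _ => (⊥ : Submodule ℂ K)) 0 0 := by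
  refine ⟨hn, VH_fg, fun _ _ _ => Submodule.fg_bot, fun _ _ _ _ => le_rfl, fun m b _ => ⟨1,
    one_ne_zero, fun P _ f hf hf0 => absurd ((Submodule.mem_bot ℂ).1 hf) hf0⟩, fun t => ⟨0,
    fun m b => ⟨1, one_ne_zero, fun P _ f hf hf0 => ?_⟩⟩, fun t => exists_hyp_dom hy hi (g ^ t)⟩
  obtain ⟨f', hf', rfl⟩ := T2H06.DYN.mem_im.1 hf
  rw [(Submodule.mem_bot ℂ).1 hf', map_zero] at hf0
  exact absurd rfl hf0

/-- large intersection numbers, if the numerical dimension is at least `j` -/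
theorem not_numLt' (hy : NormalModel y) (hn : Algebra.trdeg ℂ K = n) {D : Place ℂ K → ℚ}
    (hD : IsDivisor y D) {i : Fin (N + 1)} (hi : y i ≠ 0) {A : Place ℂ K → ℚ} (hA : Effective y A)
    (hAP : ∀ P l, IsPrimeDivisor y P → Centred y l P → A P = P.ord (y i / y l)) {j : ℕ}
    (hj : j ≤ n) (h : ¬ NumLt y n D j) :
    ∃ ε : ℝ, 0 < ε ∧ ∀ k : ℕ, ∃ m ν : ℕ, k + 1 ≤ m ∧ ν * (k + 1) ≤ m ∧
      ε * (m : ℝ) ^ j ≤ MM (Multiset.replicate j (VF y (m • D + ν • A)) +
        Multiset.replicate (n - j) (VH y)) := by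
  unfold NumLt at h
  push Not at h
  obtain ⟨A', hA', ε, hε, h⟩ := h
  obtain ⟨f, s, hf0, hfs⟩ := dominate' hy hA' hi hA hAP
  refine ⟨ε, hε, fun k => ?_⟩
  obtain ⟨m, b, hm, hb, u, hu, ω, hω, h0, hdeg⟩ := h (1 / (((s + 1 : ℕ) : ℝ) * ((k + 1 : ℕ) : ℝ)))
    (by positivity) (k + 1)
  have hbs : b * s * (k + 1) ≤ m := by
    have h1 : (b : ℝ) * (((s + 1 : ℕ) : ℝ) * ((k + 1 : ℕ) : ℝ)) ≤ m := by
      have h2 : (0 : ℝ) < ((s + 1 : ℕ) : ℝ) * ((k + 1 : ℕ) : ℝ) := by positivity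
      have h3 := mul_le_mul_of_nonneg_right hb h2.le
      have h4 : 1 / (((s + 1 : ℕ) : ℝ) * ((k + 1 : ℕ) : ℝ)) * m *
          (((s + 1 : ℕ) : ℝ) * ((k + 1 : ℕ) : ℝ)) = m := by field_simp
      linarith
    have h2 : b * ((s + 1) * (k + 1)) ≤ m := by exact_mod_cast h1
    refine le_trans ?_ h2
    rw [mul_assoc]
    exact Nat.mul_le_mul_left _ (Nat.mul_le_mul_right _ (by omega))
  refine ⟨m, b * s, hm, hbs, hdeg.le.trans ?_⟩
  have hsec : ∀ a, f ^ b * ω a ∈ VF y (m • D + (b * s) • A) := by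
    intro a P hP
    rcases hω a P hP with h2 | h2
    · left
      rw [h2, mul_zero]
    by_cases h3 : ω a = 0
    · left
      rw [h3, mul_zero]
    right
    rw [P.ord_mul (pow_ne_zero _ hf0) h3, P.ord_pow]
    rw [Pi.add_apply, Pi.smul_apply, Pi.smul_apply, nsmul_eq_mul, nsmul_eq_mul] at h2
    rw [Pi.add_apply, Pi.smul_apply, Pi.smul_apply, nsmul_eq_mul, nsmul_eq_mul]
    have h4 := mul_le_mul_of_nonneg_left (hfs P hP) (show (0 : ℚ) ≤ b from Nat.cast_nonneg b)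
    push_cast
    nlinarith
  have hfb : f ^ b ≠ 0 := pow_ne_zero _ hf0
  have hne : f ^ b * ω 0 ≠ 0 := mul_ne_zero hfb h0
  have hpen : ∀ a : Fin j, Pen (VF y (m • D + (b * s) • A)) (ω a.succ / ω 0) := fun a =>
    ⟨_, hsec a.succ, _, hsec 0, hne, by rw [mul_div_mul_left _ _ hfb]⟩
  have hcard : Algebra.trdeg ℂ K = (Multiset.replicate j (VF y (m • D + (b * s) • A)) +
      Multiset.replicate (n - j) (VH y)).card := by
    rw [Multiset.card_add, Multiset.card_replicate, Multiset.card_replicate, hn]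
    congr 1
    omega
  have hfg : ∀ U ∈ Multiset.replicate j (VF y (m • D + (b * s) • A)) +
      Multiset.replicate (n - j) (VH y), U.FG := by
    intro U hU
    rcases Multiset.mem_add.1 hU with h1 | h1
    · rw [Multiset.eq_of_mem_replicate h1]
      exact VF_fg hy hn hD hi hA hAP m _
    · rw [Multiset.eq_of_mem_replicate h1]
      exact VH_fg
  have hdg : degreeOver u (fun a : Fin j => ω a.succ / ω 0) ≤
      MM (Multiset.replicate j (VF y (m • D + (b * s) • A)) +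
        Multiset.replicate (n - j) (VH y)) := by
    rw [degreeOver_md]
    exact le_MM hcard hfg (Multiset.Rel.add (sel_rep hpen) (sel_rep fun a => pen_VH.2 (hu a)))
  exact_mod_cast hdg

/-- **Commuting birational self-maps.** -/
theorem commutingL {r : ℕ} (hr : 0 < r) {ρ : (Fin r → ℤ) → (K ≃ₐ[ℂ] K)}
    (hρ : ∀ s t, ρ (s + t) = ρ s * ρ t)
    (hy : NormalModel y) (hn : Algebra.trdeg ℂ K = n) (hn0 : 0 < n)
    {D : Place ℂ K → ℚ} (hD : IsDivisor y D)
    (hcar : Cartier y n D) (hinv : ∀ t, PullLe y D (ρ t : K →ₐ[ℂ] K) 1)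
    {j : ℕ} (hj : j ≤ n) (hjr : n ≤ r + j) (hnd : ¬ NumLt y n D j)
    {ε : ℝ} (hε : 0 < ε) :
    ∃ a : Fin r → ℤ, a ≠ 0 ∧ ∀ p ≤ n, ∀ δ : ℝ, DynDegree y n (ρ a) p δ → δ < 1 + ε := by
  classical
  obtain ⟨i, hi⟩ := hy.ne
  obtain ⟨A, hA, hAP⟩ := exists_hyp hy hi
  obtain ⟨M, β, hF⟩ := exists_nfam hρ hy hn hD hcar hinv hi hA hAP
  obtain ⟨ε₁, hε₁, h⟩ := not_numLt' hy hn hD hi hA hAP hj hnd
  choose μ ν hμ hν hle using h
  have hNN : ∀ k, MM (Multiset.replicate j (VF y (μ k • D + ν k • A)) +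
      Multiset.replicate (n - j) (VH y)) = NN ρ (VH y) (fun m b => VF y (m • D + b • A)) j
        (μ k) (ν k) (Multiset.replicate (n - j) 0) := by
    intro k
    unfold NN
    rw [Multiset.map_replicate, AA_zero hF]
  have hrep : j + (Multiset.replicate (n - j) (0 : Fin r → ℤ)).card = n := by
    rw [Multiset.card_replicate]; omega
  have hpos : 0 < GG ρ (VH y) (fun m b => VF y (m • D + b • A)) μ j
      (Multiset.replicate (n - j) 0) := by
    refine hε₁.trans_le (le_ciInf fun τ => ?_)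
    refine ge_of_tendsto (PP_tendsto hF hμ hrep τ) ?_
    filter_upwards [ev_ge τ] with k hk
    have hm : (0 : ℝ) < μ k := by exact_mod_cast one_le hμ k
    unfold QQ
    rw [le_div_iff₀ (by positivity)]
    refine (hle k).trans ?_
    rw [hNN]
    have h2 : ν k ≤ μ k / (τ + 1) := by
      rw [Nat.le_div_iff_mul_le (Nat.succ_pos τ)]
      exact (Nat.mul_le_mul_left _ (by omega)).trans (hν k)
    exact_mod_cast NN_mono hF (one_le hμ k) h2 hrep
  have hallpos := GG_pos hF hμ hpos hj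
  have hlor := glor hF hμ hj (hallpos j le_rfl)
  -- the small element
  obtain ⟨ε₀, hε₀, hexp⟩ : ∃ ε₀ : ℝ, 0 < ε₀ ∧ Real.exp (n * ε₀) < 1 + ε := by
    have h1 : 0 < Real.log (1 + ε) := Real.log_pos (by linarith)
    refine ⟨Real.log (1 + ε) / (2 * n), by positivity, ?_⟩
    rw [← Real.exp_log (show 0 < 1 + ε by linarith)]
    refine Real.exp_lt_exp.2 ?_
    rw [Real.exp_log (show 0 < 1 + ε by linarith)]
    have hn' : (0 : ℝ) < n := by exact_mod_cast hn0
    have e : (n : ℝ) * (Real.log (1 + ε) / (2 * n)) = Real.log (1 + ε) / 2 := by field_simp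
    rw [e]
    linarith
  have hsmall : ∃ a : Fin r → ℤ, a ≠ 0 ∧ (j < n →
      cc (n - j) (GG ρ (VH y) (fun m b => VF y (m • D + b • A)) μ j) a < ε₀) := by
    rcases hj.lt_or_eq with hjn | hjn
    · obtain ⟨k, hk⟩ : ∃ k, n - j = k + 1 := ⟨n - j - 1, by omega⟩
      have hlor' := hlor
      rw [hk] at hlor'
      have hsub : SubL r (cc (k + 1) (GG ρ (VH y) (fun m b => VF y (m • D + b • A)) μ j)) :=
        ⟨cc_zero hlor' (by omega), cc_add hlor' (by omega), fun l a => cc_smul hlor' (by omega) a l,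
          cc_nonneg hlor' (by omega)⟩
      obtain ⟨a, ha0, ha⟩ := small (N := k) hsub (fun s => cc_exch hlor' s) (by omega) hε₀
      refine ⟨a, ha0, fun _ => ?_⟩
      rw [hk]
      exact ha
    · refine ⟨fun _ => 1, fun h => ?_, fun h => absurd h (by omega)⟩
      have := congrFun h ⟨0, hr⟩
      simp at this
  obtain ⟨a, ha0, ha⟩ := hsmall
  refine ⟨a, ha0, ?_⟩
  -- the rates of the powers of `ρ a`
  have hF₂ := exists_fam0 hy hn hi (ρ a)
  have hMM : ∀ s : Multiset ℤ, s.card = n → GG ρ (VH y) (fun m b => VF y (m • D + b • A)) μ 0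
      (s.map fun k => k • a) = MM (s.map (T2H06.DYN.AA (ρ a) (VH y))) := by
    intro s hs
    rw [GG_zero hF hμ (by rw [Multiset.card_map, hs]), Multiset.map_map]
    congr 3
    funext k
    simp only [Function.comp_apply]
    unfold AA T2H06.DYN.AA
    rw [rho_zsmul hρ]
  have hlor0 := (glor hF hμ (Nat.zero_le n) (hallpos 0 (Nat.zero_le j))).cyc a
  have hex : ∀ p, ∃ d : ℝ, p ≤ n → Tendsto (fun m : ℕ => LD (fun s : Multiset ℤ =>
      GG ρ (VH y) (fun m b => VF y (m • D + b • A)) μ 0 (s.map fun k => k • a)) n p m / m) atTop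
        (𝓝 d) := by
    intro p
    by_cases hp : p ≤ n
    · obtain ⟨d, hd⟩ := hlor0.exists_rate (p := p) (by omega)
      exact ⟨d, fun _ => hd⟩
    · exact ⟨0, fun h => absurd h hp⟩
  choose d hd using hex
  obtain ⟨h1, h2⟩ := rates hF hμ hj hallpos a hd
  have hdle : ∀ p ≤ n, d p ≤ n * ε₀ := by
    intro p hp
    rcases hj.lt_or_eq with hjn | hjn
    · exact (h1 hjn p hp).trans (mul_le_mul_of_nonneg_left (ha hjn).le (Nat.cast_nonneg n))
    · exact (h2 hjn p hp).trans (by positivity)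
  intro p hp δ hδ
  obtain ⟨D', hD', hlim⟩ := hδ
  have hposm : ∀ m : ℕ, 0 < MM ((tri m 0 0 p 0 (n - p)).map (T2H06.DYN.AA (ρ a) (VH y))) :=
    fun m => T2H06.DYN.MM_pos hy hn hF₂ (by rw [tri_card]; omega)
  have hDm : ∀ m, D' m = MM ((tri m 0 0 p 0 (n - p)).map (T2H06.DYN.AA (ρ a) (VH y))) := fun m =>
    (hD' m).unique (T2H06.DYN.isGreatest_iter hn hF₂ hp m (hposm m))
  have h3 : Tendsto (fun m : ℕ => Real.log (D' m) / m) atTop (𝓝 (d p)) := by
    refine (hd p hp).congr fun m => ?_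
    rw [hDm]
    have h6 := hMM (tri m 0 0 p 0 (n - p)) (by rw [tri_card]; omega)
    unfold LD
    beta_reduce
    rw [h6]
  have h4 := T2H06.DYN.tendsto_root (fun m => by rw [hDm]; exact hposm m) h3
  have h5 := tendsto_nhds_unique hlim h4
  rw [h5]
  exact (Real.exp_le_exp.2 (hdle p hp)).trans_lt hexp

/-- **Invariant divisors and commuting birational self-maps.** -/
theorem commutingL_abundance {r : ℕ} (hr : 0 < r) {ρ : (Fin r → ℤ) → (K ≃ₐ[ℂ] K)}
    (hρ : ∀ s t, ρ (s + t) = ρ s * ρ t)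
    (hy : NormalModel y) (hn : Algebra.trdeg ℂ K = n) (hn0 : 0 < n)
    {D : Place ℂ K → ℚ} (hD : IsDivisor y D)
    (hcar : Cartier y n D) (hinv : ∀ t, PullLe y D (ρ t : K →ₐ[ℂ] K) 1)
    {ε : ℝ} (hε : 0 < ε)
    (hent : ∀ a : Fin r → ℤ, a ≠ 0 → ∃ p ≤ n, ∃ δ : ℝ, 1 + ε ≤ δ ∧ DynDegree y n (ρ a) p δ) :
    (∀ j ≤ n, n ≤ r + j → NumLt y n D j) ∧
      ∀ k < n, n ≤ r + k + 1 → IitakaGe y D k → IitakaEq y D k ∧ NumEq y n D k := by
  have h1 : ∀ j ≤ n, n ≤ r + j → NumLt y n D j := by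
    intro j hj hjr
    by_contra hnd
    obtain ⟨a, ha0, ha⟩ := commutingL hr hρ hy hn hn0 hD hcar hinv hj hjr hnd hε
    obtain ⟨p, hp, δ, hδ, hdyn⟩ := hent a ha0
    have := ha p hp δ hdyn
    linarith
  refine ⟨h1, fun k hk hkr hkod => ?_⟩
  have h2 := h1 (k + 1) hk (by omega)
  exact ⟨⟨hkod, iitaka_lt hy hn hk h2⟩, h2, fun h3 => iitaka_lt hy hn hk.le h3 hkod⟩

end

end Pool.Agent.T2H08.CM
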